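import Mathlib
import Pool.Agent.Y527.LA.Comb

set_option autoImplicit false

/-!
Boolean combinations of the languages of finitely many nondeterministic one-way automata, by a
deterministic 1-limited automaton. The proof is that of `Pool.Agent.Y527.LA.exists_comb`.
-/

namespace Pool.Agent.R620.KV

open Relation
open Pool.Agent.H630R2.LA
open Pool.Agent.H630R2.LA.Cmd
open Pool.Agent.Y527.LA

/-- Runs of a nondeterministic one-way automaton with states `X` and the additional initial state
`none`. -/
def Rn {A X : Type} (step : A → Option X → X → Prop) : List A → Option X → Option X → Prop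
  | [], x, y => x = y
  | a :: l, x, y => ∃ z, step a x z ∧ Rn step l (some z) y

theorem Rn_append {A X : Type} {step : A → Option X → X → Prop} (u v : List A)
    (x y : Option X) : Rn step (u ++ v) x y ↔ ∃ z, Rn step u x z ∧ Rn step v z y := by
  induction u generalizing x with
  | nil => simp [Rn]
  | cons a u ih =>
    simp only [List.cons_append, Rn]
    constructor
    · rintro ⟨z, h1, h2⟩
      obtain ⟨z', h3, h4⟩ := (ih _).1 h2
      exact ⟨z', ⟨z, h1, h3⟩, h4⟩
    · rintro ⟨z', ⟨z, h1, h3⟩, h4⟩
      exact ⟨z, h1, (ih _).2 ⟨z', h3, h4⟩⟩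

theorem Rn_none {A X : Type} {step : A → Option X → X → Prop} (u : List A)
    (h : Rn step u none none) : u = [] := by
  cases u with
  | nil => rfl
  | cons a u =>
    exfalso
    have key : ∀ (u : List A) (z : X), ¬ Rn step u (some z) none := by
      intro u
      induction u with
      | nil => intro z' h; exact absurd h (by simp [Rn])
      | cons a u ih => rintro z' ⟨z'', _, h⟩; exact ih z'' h
    obtain ⟨z, _, h2⟩ := h
    exact key u z h2

open Classical in
/-- **Boolean combinations of the languages of nondeterministic one-way automata.** -/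
theorem comb_nfa {A : Type} [Finite A] {n : ℕ} (X : Fin n → Type) [∀ i, Finite (X i)]
    (step : ∀ i, A → Option (X i) → X i → Prop) (acc : ∀ i, Option (X i) → Prop)
    (F : (Fin n → Prop) → Prop) (h : ℕ) (hh : 1 ≤ h)
    (hr : ∑ i, Nat.card (X i) + 1 ≤ 2 ^ h) :
    ∃ M' : LimAut A, M'.Deterministic ∧
      (∀ (strict' : Prop) (w : List A), w ∈ M'.language strict' ↔
        F (fun i => ∃ y, Rn (step i) w none y ∧ acc i y)) ∧
      Nat.card M'.Q ≤ 2 ^ (h ^ 2 + 6 * h + 8 + n) ∧ Nat.card M'.W = 3 * Nat.card A + 1 ∧
      M'.size ≤ 2 ^ (h ^ 2 + 6 * h + 13 + n) * (Nat.card A + 1) ∧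
      ∀ (strict' : Prop) (w : List A) (k : ℕ) (c : Cfg M'),
        Steps (Step strict' w.length) k (init M' w) c → k ≤ Nat.card M'.Q * (w.length + 1) := by
  have hcard : Nat.card (Option (Σ i : Fin n, X i)) ≤ 2 ^ h := by
    rw [Finite.card_option, Nat.card_sigma]
    exact hr
  obtain ⟨e⟩ : Nonempty (Option (Σ i : Fin n, X i) ↪ Fin (2 ^ h)) := by
    have e1 := Finite.equivFin (Option (Σ i : Fin n, X i))
    exact ⟨e1.toEmbedding.trans (Fin.castLEEmb hcard)⟩
  let rel : A → Fin (2 ^ h) → Fin (2 ^ h) → Bool := fun a p q =>
    decide (∃ (i : Fin n) (y : X i), e (some ⟨i, y⟩) = q ∧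
      ((p = e none ∧ step i a none y) ∨
        ∃ x : X i, e (some ⟨i, x⟩) = p ∧ step i a (some x) y))
  let p0 : Fin (2 ^ h) := e none
  let facc : Fin n → Fin (2 ^ h) → Bool := fun i p =>
    decide ((p = e none ∧ acc i none) ∨
      ∃ x : X i, e (some ⟨i, x⟩) = p ∧ acc i (some x))
  let f : (Fin n → Bool) → Bool := fun v => decide (F (fun i => v i = true))
  have hlen : (List.finRange n).length = n := List.length_finRange
  -- the states of the combined automaton
  have key : ∀ (w : List A) (t : ℕ), t ≤ w.length → ∀ p : Fin (2 ^ h), nr h rel p0 w t p ↔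
      ((t = 0 ∧ p = e none) ∨ (0 < t ∧ ∃ (i : Fin n) (x : X i),
        e (some ⟨i, x⟩) = p ∧ Rn (step i) (w.take t) none (some x))) := by
    intro w t
    induction t with
    | zero =>
      intro _ p
      rw [nr_zero]
      simp [p0]
    | succ t ih =>
      intro ht q
      have hwt : w[t]? = some w[t] := List.getElem?_eq_getElem (by omega)
      have htake : w.take (t + 1) = w.take t ++ [w[t]] := by
        rw [List.take_succ_eq_append_getElem (by omega)]
      constructor
      · rintro ⟨p, hp, a, ha, hrel⟩
        rw [hwt] at ha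
        cases ha
        right
        refine ⟨by omega, ?_⟩
        obtain ⟨i, y, hy, hs⟩ := of_decide_eq_true hrel
        refine ⟨i, y, hy, ?_⟩
        rw [htake, Rn_append]
        rcases (ih (by omega) p).1 hp with ⟨h1, h2⟩ | ⟨h1, i', x', h2, h3⟩
        · rcases hs with ⟨_, h4⟩ | ⟨x, h4, _⟩
          · subst h1
            refine ⟨none, ?_, y, h4, rfl⟩
            rw [List.take_zero]
            rfl
          · rw [h2] at h4
            exact absurd (e.injective h4) (by simp)
        · rcases hs with ⟨h4, _⟩ | ⟨x, h4, h5⟩
          · rw [h4] at h2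
            exact absurd (e.injective h2) (by simp)
          · rw [← h2] at h4
            have h6 := Option.some.inj (e.injective h4)
            cases h6
            exact ⟨some x, h3, y, h5, rfl⟩
      · rintro (⟨h1, _⟩ | ⟨_, i, y, hy, hrun⟩)
        · omega
        · rw [htake, Rn_append] at hrun
          obtain ⟨z, hz, y', hs, hy'⟩ := hrun
          have hy'' : some y' = some y := hy'
          cases hy''
          rcases Nat.eq_zero_or_pos t with h0 | h0
          · subst h0
            rw [List.take_zero] at hz
            have hz' : none = z := hz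
            subst hz'
            refine ⟨e none, (ih (by omega) _).2 (Or.inl ⟨rfl, rfl⟩), w[0], hwt, ?_⟩
            exact decide_eq_true ⟨i, y, hy, Or.inl ⟨rfl, hs⟩⟩
          · cases z with
            | none =>
              exfalso
              have h1 := congrArg List.length (Rn_none _ hz)
              rw [List.length_take] at h1
              simp only [List.length_nil] at h1
              omega
            | some x =>
              refine ⟨e (some ⟨i, x⟩), (ih (by omega) _).2 (Or.inr ⟨h0, i, x, rfl, hz⟩), w[t], hwt,
                ?_⟩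
              exact decide_eq_true ⟨i, y, hy, Or.inr ⟨x, rfl, hs⟩⟩
  have hacc : ∀ (w : List A) (i : Fin n), (∃ q, facc i q = true ∧ nr h rel p0 w w.length q) ↔
      ∃ y, Rn (step i) w none y ∧ acc i y := by
    intro w i
    constructor
    · rintro ⟨q, hq, hn⟩
      rw [key w w.length le_rfl, List.take_length] at hn
      rcases hn with ⟨h1, h2⟩ | ⟨h1, i', x', h2, h3⟩
      · rcases of_decide_eq_true hq with ⟨_, h4⟩ | ⟨x, h4, _⟩
        · refine ⟨none, ?_, h4⟩
          rw [List.length_eq_zero_iff.1 h1]
          rfl
        · rw [h2] at h4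
          exact absurd (e.injective h4) (by simp)
      · rcases of_decide_eq_true hq with ⟨h4, _⟩ | ⟨x, h4, h5⟩
        · rw [h4] at h2
          exact absurd (e.injective h2) (by simp)
        · rw [← h2] at h4
          have h6 := Option.some.inj (e.injective h4)
          cases h6
          exact ⟨some x, h3, h5⟩
    · rintro ⟨y, h1, h2⟩
      rcases Nat.eq_zero_or_pos w.length with h0 | h0
      · have hw : w = [] := List.length_eq_zero_iff.1 h0
        subst hw
        have h1' : none = y := h1
        subst h1'
        refine ⟨e none, decide_eq_true (Or.inl ⟨rfl, h2⟩), ?_⟩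
        exact (key [] 0 le_rfl _).2 (Or.inl ⟨rfl, rfl⟩)
      · cases y with
        | none =>
          exfalso
          rw [Rn_none _ h1] at h0
          simp at h0
        | some x =>
          refine ⟨e (some ⟨i, x⟩), decide_eq_true (Or.inr ⟨x, rfl, h2⟩), ?_⟩
          refine (key w w.length le_rfl _).2 (Or.inr ⟨h0, i, x, rfl, ?_⟩)
          rw [List.take_length]
          exact h1
  have hC1 : ∀ k, (nextP h rel p0 k).cnt + 1 ≤
      Nat.card (QG h rel p0 (finB rel p0 facc f (List.finRange n))) := by
    intro k
    rw [sum_QG]
    have h1 : (nextP h rel p0 k).cnt ≤ ∑ k : Fin (2 ^ h), (nextP h rel p0 k).cnt :=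
      Finset.single_le_sum (f := fun k => (nextP h rel p0 k).cnt) (fun _ _ => Nat.zero_le _)
        (Finset.mem_univ k)
    omega
  have hC2 : ∀ k, (finB rel p0 facc f (List.finRange n) k).cnt + 2 ≤
      Nat.card (QG h rel p0 (finB rel p0 facc f (List.finRange n))) := by
    intro k
    rw [sum_QG]
    have h1 : (finB rel p0 facc f (List.finRange n) k).cnt ≤
        ∑ k : Fin (2 ^ h), (finB rel p0 facc f (List.finRange n) k).cnt :=
      Finset.single_le_sum (f := fun k => (finB rel p0 facc f (List.finRange n) k).cnt)
        (fun _ _ => Nat.zero_le _) (Finset.mem_univ k)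
    omega
  have hmain : ∀ (strict' : Prop) (w : List A), _ := fun strict' w =>
    detG_main (strict := strict') (fin := finB rel p0 facc f (List.finRange n)) hh _ hC1 hC2
      (fun k => NL_finB k) _ (fun w τ hA => decides_finB hh (fun i => List.mem_finRange i) hA) w
  refine ⟨detG h rel p0 (finB rel p0 facc f (List.finRange n)), detG_det _ _ _ _, ?_, ?_, ?_, ?_,
    ?_⟩
  · intro strict' w
    rw [(hmain strict' w).1]
    have e1 : (fun i => decide (∃ q, facc i q = true ∧ nr h rel p0 w w.length q)) =
        (fun i => decide (∃ y, Rn (step i) w none y ∧ acc i y)) := by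
      funext i
      rw [decide_eq_decide]
      exact hacc w i
    rw [e1]
    show decide (F (fun i => decide (∃ y, Rn (step i) w none y ∧ acc i y) = true)) = true ↔ _
    rw [decide_eq_true_iff]
    have e2 : (fun i => decide (∃ y, Rn (step i) w none y ∧ acc i y) = true) =
        (fun i => ∃ y, Rn (step i) w none y ∧ acc i y) := by
      funext i
      rw [decide_eq_true_iff]
    rw [e2]
  · have h1 := card_QG (rel := rel) (p0 := p0) (facc := facc) (f := f) (l := List.finRange n)
    rw [hlen] at h1
    exact h1
  · exact card_WS A
  · have h1 := size_detG (rel := rel) (p0 := p0) (facc := facc) (f := f) (l := List.finRange n)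
    rw [hlen] at h1
    exact h1
  · intro strict' w k c hk
    exact (hmain strict' w).2 k c hk

end Pool.Agent.R620.KV
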