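import Mathlib
import Pool.Agent.H630R2.LA.Nerode

set_option autoImplicit false

/-!
Computations of 1-limited automata, the trips across a cell boundary, and the one-way automaton
that guesses the set of the trips that are going to be made.
-/

namespace Pool.Agent.R620.KV

open Relation
open Pool.Agent.H630R2.LA

variable {A : Type}

/-- `f 0, ..., f T` is a computation of `M` on the input `w`. -/
structure IsComp (strict : Prop) (M : LimAut A) (w : List A) (T : ℕ) (f : ℕ → Cfg M) : Prop where
  start : f 0 = init M w
  step : ∀ t, t < T → Step strict w.length (f t) (f (t + 1))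

/-- An accepting computation: it ends by moving past the right end-marker in a final state. -/
structure IsAcc (strict : Prop) (M : LimAut A) (w : List A) (T : ℕ) (f : ℕ → Cfg M) : Prop
    extends IsComp strict M w T f where
  last : (f T).pos = w.length + 2
  final : (f T).state ∈ M.F

/-- The trips across the boundary between the cells `i` and `i + 1`: the pairs `(p, q)` such that at
some time `s + 1` the head moves from the cell `i + 1` to the cell `i`, entering the state `p`, and
that the state is `q` when it returns to the cell `i + 1` for the first time. -/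
def trips {M : LimAut A} (T : ℕ) (f : ℕ → Cfg M) (i : ℕ) : Set (M.Q × M.Q) :=
  {x | ∃ s t, s + 1 < t ∧ t ≤ T ∧ (f s).pos = i + 1 ∧ (f (s + 1)).pos = i ∧
    (f (s + 1)).state = x.1 ∧ (f t).pos = i + 1 ∧ (f t).state = x.2 ∧
    ∀ r, s + 1 ≤ r → r < t → (f r).pos ≤ i}

/-- One step of the guessing one-way automaton. -/
def nstepS (strict : Prop) (M : LimAut A) (σ : Sym M.W) (x y : Set (M.Q × M.Q) × M.Q) : Prop :=
  ∃ q b d, (q, b, d) ∈ M.δ x.2 σ ∧ y.1 ⊆ ext strict M x.1 (σ.rewrite b) ∧
    (d = true → y.2 = q) ∧
    (d = false → ∃ s, (q, s) ∈ x.1 ∧ (s, y.2) ∈ ext strict M x.1 (σ.rewrite b))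

section sound

variable {strict : Prop} {M : LimAut A}

theorem ext_mono {R R' : Set (M.Q × M.Q)} (h : R ⊆ R') (σ : Sym M.W) :
    ext strict M R σ ⊆ ext strict M R' σ := by
  rintro x ⟨s, h1, h2⟩
  refine ⟨s, ReflTransGen.mono ?_ _ _ h1, h2⟩
  rintro y z ⟨r, h3, h4⟩
  exact ⟨r, h3, h h4⟩

theorem nstep_of_nstepS {σ : Sym M.W} {x y : Set (M.Q × M.Q) × M.Q}
    (h : nstepS strict M σ x y) (R : Set (M.Q × M.Q)) (hR : x.1 ⊆ R) :
    ∃ R', y.1 ⊆ R' ∧ nstep strict M σ (R, x.2) (R', y.2) := by
  obtain ⟨q, b, d, h1, h2, h3, h4⟩ := h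
  refine ⟨ext strict M R (σ.rewrite b), h2.trans (ext_mono hR _), q, b, d, h1, rfl, h3, ?_⟩
  intro hd
  obtain ⟨s, h5, h6⟩ := h4 hd
  exact ⟨s, hR h5, ext_mono hR _ h6⟩

end sound

section comp

variable {strict : Prop} {M : LimAut A} {w : List A} {T : ℕ} {f : ℕ → Cfg M}

theorem pos_succ (hf : IsComp strict M w T f) {t : ℕ} (ht : t < T) :
    (f (t + 1)).pos = (f t).pos + 1 ∨ (f (t + 1)).pos + 1 = (f t).pos := by
  obtain ⟨_, q, b, d, _, _, _, _, _, _, h1, h2⟩ := hf.step t ht
  cases d
  · exact Or.inr (h2 rfl)
  · exact Or.inl (h1 rfl)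

theorem mem_seen (hf : IsComp strict M w T f) (i : ℕ) :
    ∀ t, t ≤ T → (i ∈ (f t).seen ↔ ∃ r, r < t ∧ (f r).pos = i) := by
  intro t
  induction t with
  | zero =>
    intro _
    rw [hf.start]
    simp [init]
  | succ t ih =>
    intro ht
    obtain ⟨_, q, b, d, _, _, _, _, _, h1, _, _⟩ := hf.step t (by omega)
    rw [h1, Set.mem_insert_iff, ih (by omega)]
    constructor
    · rintro (h | ⟨r, h2, h3⟩)
      · exact ⟨t, by omega, h.symm⟩
      · exact ⟨r, by omega, h3⟩
    · rintro ⟨r, h2, h3⟩
      rcases Nat.lt_or_ge r t with h4 | h4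
      · exact Or.inr ⟨r, h4, h3⟩
      · have : r = t := by omega
        subst this
        exact Or.inl h3.symm

/-- A cell that has not been visited has its initial content. -/
theorem tape_unseen (hf : IsComp strict M w T f) (i : ℕ) :
    ∀ t, t ≤ T → (∀ r, r < t → (f r).pos ≠ i) → (f t).tape i = initTape M w i := by
  intro t
  induction t with
  | zero =>
    intro _ _
    rw [hf.start]
    rfl
  | succ t ih =>
    intro ht h
    obtain ⟨_, q, b, d, _, _, _, h1, h2, _, _, _⟩ := hf.step t (by omega)
    have h3 := ih (by omega) (fun r hr => h r (by omega))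
    by_cases hs : (f t).pos ∈ (f t).seen
    · rw [h1 hs, h3]
    · rw [h2 hs, Function.update_of_ne (h t (by omega)).symm, h3]

/-- A visited cell is frozen. -/
theorem tape_frozen (hf : IsComp strict M w T f) (i r0 : ℕ) (hr0 : (f r0).pos = i) :
    ∀ t, r0 < t → t ≤ T → (f t).tape i = (f (r0 + 1)).tape i := by
  intro t
  induction t with
  | zero => intro h; omega
  | succ t ih =>
    intro h1 h2
    rcases Nat.lt_or_ge r0 t with h3 | h3
    · obtain ⟨_, q, b, d, _, _, _, h4, h5, _, _, _⟩ := hf.step t (by omega)
      rw [← ih h3 (by omega)]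
      by_cases hs : (f t).pos ∈ (f t).seen
      · rw [h4 hs]
      · rw [h5 hs]
        have hne : i ≠ (f t).pos := by
          intro he
          apply hs
          rw [mem_seen hf _ t (by omega)]
          exact ⟨r0, h3, by rw [hr0, he]⟩
        rw [Function.update_of_ne hne]
    · have : t = r0 := by omega
      rw [this]

/-- The first time after `s` at which the head is on the cell `i + 1`. -/
theorem exists_next (hf : IsComp strict M w T f) (i s t : ℕ) (hst : s ≤ t) (ht : t ≤ T)
    (hs : (f s).pos ≤ i) (hpt : i + 1 ≤ (f t).pos) :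
    ∃ r, s < r ∧ r ≤ t ∧ (f r).pos = i + 1 ∧ ∀ u, s ≤ u → u < r → (f u).pos ≤ i := by
  induction t with
  | zero =>
    have : s = 0 := by omega
    subst this
    omega
  | succ t ih =>
    rcases Nat.lt_or_ge t s with h1 | h1
    · have : s = t + 1 := by omega
      subst this
      omega
    · by_cases h2 : i + 1 ≤ (f t).pos
      · obtain ⟨r, h3, h4, h5, h6⟩ := ih h1 (by omega) h2
        exact ⟨r, h3, by omega, h5, h6⟩
      · have h3 := pos_succ hf (t := t) (by omega)
        by_cases h4 : ∃ u, s ≤ u ∧ u ≤ t ∧ i + 1 ≤ (f u).pos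
        · -- take the least such time
          classical
          let u := Nat.find h4
          have hu := Nat.find_spec h4
          have hmin : ∀ v, v < u → ¬ (s ≤ v ∧ v ≤ t ∧ i + 1 ≤ (f v).pos) := fun v hv =>
            Nat.find_min h4 hv
          have hu' : s ≤ u ∧ u ≤ t ∧ i + 1 ≤ (f u).pos := hu
          have hsu : s < u := by
            rcases Nat.lt_or_ge s u with h | h
            · exact h
            · have : u = s := by omega
              rw [this] at hu'
              omega
          refine ⟨u, hsu, by omega, ?_, ?_⟩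
          · have h5 := hmin (u - 1) (by omega)
            have h6 := pos_succ hf (t := u - 1) (by omega)
            have e : u - 1 + 1 = u := by omega
            rw [e] at h6
            have h7 : (f (u - 1)).pos ≤ i := by
              by_contra hc
              exact h5 ⟨by omega, by omega, by omega⟩
            omega
          · intro v hv1 hv2
            by_contra hc
            exact hmin v hv2 ⟨hv1, by omega, by omega⟩
        · refine ⟨t + 1, by omega, le_rfl, by omega, ?_⟩
          intro u hu1 hu2
          by_contra hc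
          exact h4 ⟨u, hu1, by omega, by omega⟩

/-- The key lemma: `r0` is the time of the first visit of the cell `m + 1`; the time `t` is the
first time after `r0` at which the head is on the cell `m + 2` or a later such time without
visits of this cell since the time `a`. -/
theorem key (hf : IsComp strict M w T f) (m r0 : ℕ) (σ : Sym M.W) (hr0 : (f r0).pos = m + 1)
    (hσ : (f (r0 + 1)).tape (m + 1) = σ) (a t : ℕ) (ha : r0 < a) (ht : t ≤ T)
    (hpt : (f t).pos = m + 2) (hle : ∀ r, a ≤ r → r < t → (f r).pos ≤ m + 1) :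
    ∀ j r, t - r ≤ j → a ≤ r → r < t → (f r).pos = m + 1 →
      ((f r).state, (f t).state) ∈ ext strict M (trips T f m) σ := by
  intro j
  induction j with
  | zero => intro r h1 h2 h3 _; omega
  | succ j ih =>
    intro r h1 h2 h3 h4
    obtain ⟨_, q, b, d, hδ, hstr, hst, _, _, _, hr, hl⟩ := hf.step r (by omega)
    have htape : (f r).tape (f r).pos = σ := by
      rw [h4, tape_frozen hf (m + 1) r0 hr0 r (by omega) (by omega), hσ]
    have hseen : (f r).pos ∈ (f r).seen := by
      rw [mem_seen hf _ r (by omega)]
      exact ⟨r0, by omega, by rw [hr0, h4]⟩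
    have hfz : fz strict M (f r).state σ q d := by
      rw [htape] at hδ hstr
      exact ⟨b, hδ, fun hs => hstr hs hseen⟩
    cases d
    · have h5 : (f (r + 1)).pos = m := by
        have := hl rfl
        omega
      have h6 : r + 1 ≠ t := by
        intro he
        rw [he] at h5
        omega
      obtain ⟨u, hu1, hu2, hu3, hu4⟩ := exists_next hf m (r + 1) t (by omega) ht (by omega)
        (by omega)
      have h7 : u ≠ t := by
        intro he
        rw [he] at hu3
        omega
      refine mem_ext_loop hfz ?_ (ih u (by omega) (by omega) (by omega) hu3)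
      exact ⟨r, u, hu1, by omega, h4, h5, hst, hu3, rfl, hu4⟩
    · have h5 : (f (r + 1)).pos = m + 2 := by
        have := hr rfl
        omega
      have h6 : r + 1 = t := by
        by_contra hc
        have := hle (r + 1) (by omega) (by omega)
        omega
      rw [← h6, hst]
      exact mem_ext_right hfz

/-- The first arrivals. -/
theorem arrival (hf : IsComp strict M w T f) (m : ℕ) (h : ∃ t, t ≤ T ∧ m + 1 ≤ (f t).pos) :
    ∃ t, t ≤ T ∧ (f t).pos = m + 1 ∧ ∀ r, r < t → (f r).pos ≤ m := by
  classical
  let u := Nat.find h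
  have hu' : u ≤ T ∧ m + 1 ≤ (f u).pos := Nat.find_spec h
  have hmin : ∀ v, v < u → ¬ (v ≤ T ∧ m + 1 ≤ (f v).pos) := fun v hv => Nat.find_min h hv
  refine ⟨u, hu'.1, ?_, ?_⟩
  · rcases Nat.eq_zero_or_pos u with h0 | h0
    · rw [h0, hf.start] at hu' ⊢
      have : (init M w).pos = 1 := rfl
      omega
    · have h5 := hmin (u - 1) (by omega)
      have h6 := pos_succ hf (t := u - 1) (by omega)
      have e : u - 1 + 1 = u := by omega
      rw [e] at h6
      have h7 : (f (u - 1)).pos ≤ m := by
        by_contra hc
        exact h5 ⟨by omega, by omega⟩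
      omega
  · intro v hv
    by_contra hc
    exact hmin v hv ⟨by omega, by omega⟩

/-- One step of the guessing automaton along a computation. -/
theorem step_complete (hf : IsComp strict M w T f) (m t0 t1 : ℕ)
    (h0 : (f t0).pos = m + 1) (h0' : ∀ r, r < t0 → (f r).pos ≤ m) (h1 : t1 ≤ T)
    (h2 : (f t1).pos = m + 2) (h3 : ∀ r, r < t1 → (f r).pos ≤ m + 1) :
    nstepS strict M (initTape M w (m + 1)) (trips T f m, (f t0).state)
      (trips T f (m + 1), (f t1).state) := by
  have ht01 : t0 < t1 := by
    by_contra hc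
    rcases Nat.lt_or_ge t1 t0 with h | h
    · have := h0' t1 h
      omega
    · have : t0 = t1 := by omega
      rw [this] at h0
      omega
  obtain ⟨_, q, b, d, hδ, _, hst, _, htp, _, hr, hl⟩ := hf.step t0 (by omega)
  have hun : ∀ r, r < t0 → (f r).pos ≠ m + 1 := fun r hr => by
    have := h0' r hr
    omega
  have htape : (f t0).tape (m + 1) = initTape M w (m + 1) := tape_unseen hf _ t0 (by omega) hun
  have hns : (f t0).pos ∉ (f t0).seen := by
    rw [mem_seen hf _ t0 (by omega)]
    rintro ⟨r, h4, h5⟩
    exact hun r h4 (by rw [h5, h0])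
  set σ : Sym M.W := (initTape M w (m + 1)).rewrite b with hσ
  have hnew : (f (t0 + 1)).tape (m + 1) = σ := by
    rw [htp hns, h0, Function.update_self, htape]
  rw [h0, htape] at hδ
  refine ⟨q, b, d, hδ, ?_, ?_, ?_⟩
  · rintro ⟨p, q'⟩ ⟨s, t, h4, h5, h6, h7, h8, h9, h10, h11⟩
    have hs : t0 < s := by
      by_contra hc
      rcases Nat.lt_or_ge s t0 with h | h
      · have := h0' s h
        omega
      · have : s = t0 := by omega
        rw [this] at h6
        omega
    have hk := key hf m t0 σ h0 hnew (s + 1) t (by omega) h5 h9 (fun r hr1 hr2 => h11 r hr1 hr2)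
      (t - (s + 1)) (s + 1) le_rfl le_rfl h4 h7
    rw [h8, h10] at hk
    exact hk
  · intro hd
    have h4 : (f (t0 + 1)).pos = m + 2 := by
      have := hr hd
      omega
    have h5 : t0 + 1 = t1 := by
      by_contra hc
      have := h3 (t0 + 1) (by omega)
      omega
    show (f t1).state = q
    rw [← h5, hst]
  · intro hd
    have h4 : (f (t0 + 1)).pos = m := by
      have := hl hd
      omega
    obtain ⟨u, hu1, hu2, hu3, hu4⟩ := exists_next hf m (t0 + 1) t1 (by omega) h1 (by omega)
      (by omega)
    have h7 : u ≠ t1 := by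
      intro he
      rw [he] at hu3
      omega
    refine ⟨(f u).state, ⟨t0, u, hu1, by omega, h0, h4, hst, hu3, rfl, hu4⟩, ?_⟩
    exact key hf m t0 σ h0 hnew u t1 (by omega) h1 h2 (fun r _ hr2 => h3 r hr2)
      (t1 - u) u le_rfl le_rfl (by omega) hu3

/-- The trips to the left end-marker. -/
theorem trips_zero (hf : IsComp strict M w T f) : trips T f 0 ⊆ ext strict M ∅ .lm := by
  rintro ⟨p, q'⟩ ⟨s, t, h4, h5, h6, h7, h8, h9, h10, h11⟩
  obtain ⟨_, q, b, d, hδ, _, hst, _, _, _, hr, hl⟩ := hf.step (s + 1) (by omega)
  have h0 : ∀ r, r ≤ T → (f r).tape 0 = .lm := by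
    intro r
    induction r with
    | zero => intro _; rw [hf.start]; rfl
    | succ r ih =>
      intro hr
      obtain ⟨_, q, b, d, _, _, _, e1, e2, _, _, _⟩ := hf.step r (by omega)
      by_cases hs : (f r).pos ∈ (f r).seen
      · rw [e1 hs]
        exact ih (by omega)
      · rw [e2 hs]
        by_cases h : (f r).pos = 0
        · rw [h, Function.update_self, ih (by omega)]
          rfl
        · rw [Function.update_of_ne (Ne.symm h)]
          exact ih (by omega)
  rw [h7, h0 (s + 1) (by omega)] at hδ
  cases d
  · have := hl rfl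
    omega
  · have h12 := hr rfl
    have h13 : s + 1 + 1 = t := by
      by_contra hc
      have := h11 (s + 1 + 1) (by omega) (by omega)
      omega
    rw [h13] at hst
    show (p, q') ∈ _
    simp only at h8 h10
    rw [← h10, hst, ← h8]
    exact mem_ext_right ⟨b, hδ, fun _ => rfl⟩

end comp

end Pool.Agent.R620.KV
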