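import Mathlib
import Pool.Agent.R620.KV.Comb
import Pool.Agent.R620.KV.Trips

set_option autoImplicit false

/-!
1-limited automata with few trips: the guessing automaton is small and accepts the language.
-/

namespace Pool.Agent.R620.KV

open Relation
open Pool.Agent.H630R2.LA
open Pool.Agent.Y527.LA

variable {A : Type}

/-- Every word of the language has an accepting computation with at most `k` different trips across
each cell boundary. -/
def FewTrips (strict : Prop) (k : ℕ) (M : LimAut A) : Prop :=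
  ∀ w ∈ M.language strict, ∃ (T : ℕ) (f : ℕ → Cfg M), IsAcc strict M w T f ∧
    ∀ i, (trips T f i).ncard ≤ k

/-- Every word of the language has an accepting computation which visits every cell at most `k`
times. -/
def FewVisits (strict : Prop) (k : ℕ) (M : LimAut A) : Prop :=
  ∀ w ∈ M.language strict, ∃ (T : ℕ) (f : ℕ → Cfg M), IsAcc strict M w T f ∧
    ∀ i, {t | t < T ∧ (f t).pos = i}.ncard ≤ k

theorem FewVisits.fewTrips {strict : Prop} {k : ℕ} {M : LimAut A} (h : FewVisits strict k M) :
    FewTrips strict k M := by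
  intro w hw
  obtain ⟨T, f, hf, hk⟩ := h w hw
  refine ⟨T, f, hf, fun i => le_trans ?_ (hk (i + 1))⟩
  have hfin : {t | t < T ∧ (f t).pos = i + 1}.Finite :=
    (Set.finite_lt_nat T).subset fun t ht => ht.1
  classical
  choose! s hs using fun (x : M.Q × M.Q) (hx : x ∈ trips T f i) => hx
  refine Set.ncard_le_ncard_of_injOn s ?_ ?_ hfin
  · intro x hx
    obtain ⟨t, h1, h2, h3, _⟩ := hs x hx
    exact ⟨by omega, h3⟩
  · intro x hx y hy hxy
    obtain ⟨t, h1, h2, h3, h4, h5, h6, h7, h8⟩ := hs x hx
    obtain ⟨t', h1', h2', h3', h4', h5', h6', h7', h8'⟩ := hs y hy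
    rw [← hxy] at h1' h5' h8'
    have : t = t' := by
      rcases Nat.lt_trichotomy t t' with h | h | h
      · have := h8' t (by omega) h
        omega
      · exact h
      · have := h8 t' (by omega) h
        omega
    subst this
    exact Prod.ext (h5.symm.trans h5') (h7.symm.trans h7')

/-- The states of the guessing automaton. -/
def XS (M : LimAut A) (k : ℕ) : Type := {x : Set (M.Q × M.Q) × M.Q // x.1.ncard ≤ k}

theorem finite_XS (M : LimAut A) (k : ℕ) : Finite (XS M k) := by
  have := M.finQ
  unfold XS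
  infer_instance

/-- The number of the sets with at most `k` elements. -/
theorem card_small (α : Type) [Finite α] (k : ℕ) :
    Nat.card {U : Set α // U.ncard ≤ k} ≤ (Nat.card α + 1) ^ k := by
  classical
  have h1 : Nat.card (Fin k → Option α) = (Nat.card α + 1) ^ k := by
    rw [Nat.card_fun, Nat.card_fin, Finite.card_option]
  rw [← h1]
  have hle : ∀ g : Fin k → Option α, {x | ∃ i, g i = some x}.ncard ≤ k := by
    intro g
    have h2 : (some '' {x | ∃ i, g i = some x}).ncard = {x | ∃ i, g i = some x}.ncard :=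
      Set.ncard_image_of_injective _ (Option.some_injective α)
    have h3 : (some '' {x | ∃ i, g i = some x}) ⊆ g '' Set.univ := by
      rintro _ ⟨x, ⟨i, hi⟩, rfl⟩
      exact ⟨i, Set.mem_univ _, hi⟩
    have h4 : (g '' Set.univ).ncard ≤ (Set.univ : Set (Fin k)).ncard :=
      Set.ncard_image_le (Set.toFinite _)
    rw [Set.ncard_univ, Nat.card_fin] at h4
    rw [← h2]
    exact (Set.ncard_le_ncard h3 (Set.toFinite _)).trans h4
  refine Nat.card_le_card_of_surjective
    (fun g : Fin k → Option α => (⟨{x | ∃ i, g i = some x}, hle g⟩ :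
      {U : Set α // U.ncard ≤ k})) ?_
  rintro ⟨U, hU⟩
  have hUf : U.Finite := Set.toFinite U
  obtain ⟨e⟩ : Nonempty (U ↪ Fin k) := by
    have e1 := Finite.equivFin U
    have h2 : Nat.card U ≤ k := by
      rw [Nat.card_coe_set_eq]
      exact hU
    exact ⟨e1.toEmbedding.trans (Fin.castLEEmb h2)⟩
  refine ⟨fun i => if h : ∃ x : U, e x = i then some (h.choose : α) else none, ?_⟩
  apply Subtype.ext
  ext x
  constructor
  · rintro ⟨i, hi⟩
    dsimp only at hi
    split_ifs at hi with h
    · cases hi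
      exact h.choose.2
  · intro hx
    refine ⟨e ⟨x, hx⟩, ?_⟩
    have h : ∃ y : U, e y = e ⟨x, hx⟩ := ⟨_, rfl⟩
    dsimp only
    rw [dif_pos h, e.injective h.choose_spec]

theorem card_XS (M : LimAut A) (k : ℕ) :
    Nat.card (XS M k) ≤ (Nat.card M.Q * Nat.card M.Q + 1) ^ k * Nat.card M.Q := by
  have := M.finQ
  have h1 : Nat.card (XS M k) ≤ Nat.card ({U : Set (M.Q × M.Q) // U.ncard ≤ k} × M.Q) := by
    refine Nat.card_le_card_of_injective
      (fun x : XS M k => ((⟨x.1.1, x.2⟩ : {U : Set (M.Q × M.Q) // U.ncard ≤ k}), x.1.2)) ?_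
    intro x y hxy
    simp only [Prod.mk.injEq, Subtype.mk.injEq] at hxy
    exact Subtype.ext (Prod.ext hxy.1 hxy.2)
  rw [Nat.card_prod] at h1
  have h2 := card_small (M.Q × M.Q) k
  rw [Nat.card_prod] at h2
  exact h1.trans (Nat.mul_le_mul_right _ h2)

/-- The pair that belongs to a state of the guessing automaton. -/
def val (strict : Prop) (M : LimAut A) (k : ℕ) : Option (XS M k) → Set (M.Q × M.Q) × M.Q
  | none => x0 strict M
  | some x => x.1

/-- The moves of the guessing automaton. -/
def stepX (strict : Prop) (M : LimAut A) (k : ℕ) (a : A) (x : Option (XS M k)) (y : XS M k) :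
    Prop := nstepS strict M (.sym (M.inp a)) (val strict M k x) y.1

/-- The accepting states of the guessing automaton. -/
def accX (strict : Prop) (M : LimAut A) (k : ℕ) (x : Option (XS M k)) : Prop :=
  ∃ z, nstepS strict M .rm (val strict M k x) z ∧ z.2 ∈ M.F

theorem nstepS_mono {strict : Prop} {M : LimAut A} {σ : Sym M.W} {U R : Set (M.Q × M.Q)} {s : M.Q}
    {y : Set (M.Q × M.Q) × M.Q} (h : nstepS strict M σ (U, s) y) (hR : U ⊆ R) :
    nstepS strict M σ (R, s) y := by
  obtain ⟨q, b, d, h1, h2, h3, h4⟩ := h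
  refine ⟨q, b, d, h1, h2.trans (ext_mono hR _), h3, ?_⟩
  intro hd
  obtain ⟨s', h5, h6⟩ := h4 hd
  exact ⟨s', hR h5, ext_mono hR _ h6⟩

theorem sound {strict : Prop} {M : LimAut A} {k : ℕ} (u : List A) :
    ∀ (x y : Option (XS M k)) (R : Set (M.Q × M.Q)), (val strict M k x).1 ⊆ R →
      Rn (stepX strict M k) u x y → ∃ R', (val strict M k y).1 ⊆ R' ∧
        runs strict M u (R, (val strict M k x).2) (R', (val strict M k y).2) := by
  induction u with
  | nil =>
    intro x y R hR h
    have : x = y := h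
    subst this
    exact ⟨R, hR, rfl⟩
  | cons a u ih =>
    rintro x y R hR ⟨z, h1, h2⟩
    obtain ⟨R1, h3, h4⟩ := nstep_of_nstepS h1 R hR
    obtain ⟨R2, h5, h6⟩ := ih (some z) y R1 h3 h2
    exact ⟨R2, h5, _, h4, h6⟩

theorem complete {strict : Prop} {M : LimAut A} {k : ℕ} {w : List A} {T : ℕ} {f : ℕ → Cfg M}
    (hf : IsAcc strict M w T f) (hk : ∀ i, (trips T f i).ncard ≤ k) :
    ∃ y, Rn (stepX strict M k) w none y ∧ accX strict M k y := by
  have hle : ∀ r, r < T → (f r).pos ≤ w.length + 1 := fun r hr => (hf.step r hr).1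
  have key : ∀ m, m ≤ w.length → ∃ (y : Option (XS M k)) (t : ℕ),
      Rn (stepX strict M k) (w.take m) none y ∧ t ≤ T ∧ (f t).pos = m + 1 ∧
      (∀ r, r < t → (f r).pos ≤ m) ∧ trips T f m ⊆ (val strict M k y).1 ∧
      (val strict M k y).2 = (f t).state := by
    intro m
    induction m with
    | zero =>
      intro _
      refine ⟨none, 0, rfl, Nat.zero_le _, ?_, fun r hr => absurd hr (Nat.not_lt_zero _), ?_, ?_⟩
      · rw [hf.start]; rfl
      · exact trips_zero hf.toIsComp
      · rw [hf.start]; rfl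
    | succ m ih =>
      intro hm
      obtain ⟨y, t0, h1, h2, h3, h4, h5, h6⟩ := ih (by omega)
      obtain ⟨t1, h7, h8, h9⟩ := arrival hf.toIsComp (m + 1) ⟨T, le_rfl, by rw [hf.last]; omega⟩
      have hs := step_complete hf.toIsComp m t0 t1 h3 h4 h7 h8 h9
      have hwt : w[m]? = some w[m] := List.getElem?_eq_getElem (by omega)
      have hcell : initTape M w (m + 1) = .sym (M.inp w[m]) := by
        simp only [initTape, hwt]
      have htake : w.take (m + 1) = w.take m ++ [w[m]] := by
        rw [List.take_succ_eq_append_getElem (by omega)]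
      rw [hcell] at hs
      refine ⟨some ⟨(trips T f (m + 1), (f t1).state), hk (m + 1)⟩, t1, ?_, h7, h8, h9,
        fun _ h => h, rfl⟩
      rw [htake, Rn_append]
      refine ⟨y, h1, _, ?_, rfl⟩
      show nstepS strict M _ (val strict M k y) _
      have e : val strict M k y = ((val strict M k y).1, (f t0).state) := by
        rw [← h6]
      rw [e]
      exact nstepS_mono hs h5
  obtain ⟨y, t0, h1, h2, h3, h4, h5, h6⟩ := key w.length le_rfl
  rw [List.take_length] at h1
  refine ⟨y, h1, ?_⟩
  have hs := step_complete hf.toIsComp w.length t0 T h3 h4 le_rfl hf.last hle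
  have hcell : initTape M w (w.length + 1) = .rm := by
    simp only [initTape, List.getElem?_eq_none (le_refl w.length)]
  rw [hcell] at hs
  refine ⟨(trips T f (w.length + 1), (f T).state), ?_, hf.final⟩
  have e : val strict M k y = ((val strict M k y).1, (f t0).state) := by
    rw [← h6]
  rw [e]
  exact nstepS_mono hs h5

theorem language_iff {strict : Prop} {M : LimAut A} {k : ℕ} (hM : FewTrips strict k M)
    (w : List A) : (∃ y, Rn (stepX strict M k) w none y ∧ accX strict M k y) ↔
      w ∈ M.language strict := by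
  constructor
  · rintro ⟨y, h1, z, h2, h3⟩
    rw [mem_language_runs]
    obtain ⟨R, h4, h5⟩ := sound w none y (x0 strict M).1 (fun _ h => h) h1
    obtain ⟨R', _, h6⟩ := nstep_of_nstepS h2 R h4
    exact ⟨_, h5, _, h6, h3⟩
  · intro hw
    obtain ⟨T, f, hf, hk⟩ := hM w hw
    exact complete hf hk

/-- **Boolean combinations of 1-limited automata with few trips.** -/
theorem trips_main [Finite A] (strict : Prop) {n : ℕ} (M : Fin n → LimAut A) (k : Fin n → ℕ)
    (hM : ∀ i, FewTrips strict (k i) (M i)) (F : (Fin n → Prop) → Prop) (h : ℕ) (hh : 1 ≤ h)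
    (hr : ∑ i, (Nat.card (M i).Q * Nat.card (M i).Q + 1) ^ (k i) * Nat.card (M i).Q + 1
      ≤ 2 ^ h) :
    ∃ M' : LimAut A, M'.Deterministic ∧
      (∀ (strict' : Prop) (w : List A), w ∈ M'.language strict' ↔
        F (fun i => w ∈ (M i).language strict)) ∧
      Nat.card M'.Q ≤ 2 ^ (h ^ 2 + 6 * h + 8 + n) ∧ Nat.card M'.W = 3 * Nat.card A + 1 ∧
      M'.size ≤ 2 ^ (h ^ 2 + 6 * h + 13 + n) * (Nat.card A + 1) ∧
      ∀ (strict' : Prop) (w : List A) (t : ℕ) (c : Cfg M'),
        Steps (Step strict' w.length) t (init M' w) c → t ≤ Nat.card M'.Q * (w.length + 1) := by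
  have hfin : ∀ i, Finite (XS (M i) (k i)) := fun i => finite_XS _ _
  have hr' : ∑ i, Nat.card (XS (M i) (k i)) + 1 ≤ 2 ^ h := by
    refine le_trans (Nat.add_le_add_right ?_ 1) hr
    exact Finset.sum_le_sum fun i _ => card_XS (M i) (k i)
  obtain ⟨M', h1, h2, h3, h4, h5, h6⟩ := comb_nfa (A := A) (fun i => XS (M i) (k i))
    (fun i => stepX strict (M i) (k i)) (fun i => accX strict (M i) (k i)) F h hh hr'
  refine ⟨M', h1, fun strict' w => ?_, h3, h4, h5, h6⟩
  rw [h2]
  have e : (fun i => ∃ y, Rn (stepX strict (M i) (k i)) w none y ∧ accX strict (M i) (k i) y) =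
      (fun i => w ∈ (M i).language strict) := by
    funext i
    exact propext (language_iff (hM i) w)
  rw [e]

end Pool.Agent.R620.KV
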