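import Mathlib
import Pool.Agent.R620.KV.Main
import Pool.Agent.TH705.LB.Lower

set_option autoImplicit false

/-!
The cost of determinizing 1-limited automata with few trips or few visits.
-/

namespace Pool.Agent.R620.KV

open Relation
open Pool.Agent.H630R2.LA
open Pool.Agent.Y527.LA
open Pool.Agent.TH705.LB (witM Ltr size_witM lowerQ)

variable {A : Type}

/-- The guessing automaton as a nondeterministic finite automaton. -/
def nfaX (strict : Prop) (M : LimAut A) (k : ℕ) : NFA A (Option (XS M k)) where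
  step x a := {y | ∃ z, y = some z ∧ stepX strict M k a x z}
  start := {none}
  accept := {x | accX strict M k x}

theorem mem_evalFrom (strict : Prop) (M : LimAut A) (k : ℕ) (u : List A) :
    ∀ (S : Set (Option (XS M k))) (y : Option (XS M k)),
      y ∈ (nfaX strict M k).evalFrom S u ↔ ∃ x ∈ S, Rn (stepX strict M k) u x y := by
  induction u with
  | nil =>
    intro S y
    rw [NFA.evalFrom_nil]
    exact ⟨fun h => ⟨y, h, rfl⟩, by rintro ⟨x, h, h'⟩; cases (show x = y from h'); exact h⟩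
  | cons a u ih =>
    intro S y
    rw [NFA.evalFrom_cons, ih]
    constructor
    · rintro ⟨x, hx, h⟩
      rw [NFA.mem_stepSet] at hx
      obtain ⟨s, hs, z, rfl, hz⟩ := hx
      exact ⟨s, hs, z, hz, h⟩
    · rintro ⟨x, hx, z, hz, h⟩
      refine ⟨some z, ?_, h⟩
      rw [NFA.mem_stepSet]
      exact ⟨x, hx, z, rfl, hz⟩

theorem nfaX_accepts {strict : Prop} {M : LimAut A} {k : ℕ} (hM : FewTrips strict k M)
    (w : List A) : w ∈ (nfaX strict M k).accepts ↔ w ∈ M.language strict := by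
  rw [← language_iff hM w]
  show (∃ S ∈ {x | accX strict M k x}, S ∈ (nfaX strict M k).evalFrom {none} w) ↔ _
  constructor
  · rintro ⟨y, hy, h⟩
    obtain ⟨x, hx, h'⟩ := (mem_evalFrom strict M k w _ y).1 h
    rw [Set.mem_singleton_iff] at hx
    subst hx
    exact ⟨y, h', hy⟩
  · rintro ⟨y, h, hy⟩
    exact ⟨y, hy, (mem_evalFrom strict M k w _ y).2 ⟨none, rfl, h⟩⟩

theorem card_nfaX (M : LimAut A) (k : ℕ) :
    Nat.card (Option (XS M k)) ≤ (Nat.card M.Q * Nat.card M.Q + 1) ^ k * Nat.card M.Q + 1 := by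
  have := finite_XS M k
  rw [Finite.card_option]
  exact Nat.add_le_add_right (card_XS M k) 1

theorem card_pos (M : LimAut A) : 1 ≤ Nat.card M.Q := by
  have := M.finQ
  have : Nonempty M.Q := ⟨M.q0⟩
  exact Nat.card_pos

/-- The number of states in terms of the number of trips. -/
theorem pow_bound (q k L : ℕ) (hL : q + 1 ≤ 2 ^ L) :
    (q * q + 1) ^ k * q + 1 ≤ 2 ^ ((2 * k + 1) * L) := by
  have h1 : q * q + 1 ≤ (q + 1) ^ 2 := by nlinarith
  have h2 : (q * q + 1) ^ k ≤ (q + 1) ^ (2 * k) := by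
    rw [pow_mul]
    exact Nat.pow_le_pow_left h1 k
  have h3 : 1 ≤ (q + 1) ^ (2 * k) := Nat.one_le_pow _ _ (by omega)
  calc (q * q + 1) ^ k * q + 1 ≤ (q + 1) ^ (2 * k) * q + 1 := by
        exact Nat.add_le_add_right (Nat.mul_le_mul_right _ h2) 1
    _ ≤ (q + 1) ^ (2 * k) * (q + 1) := by
        rw [Nat.mul_add, Nat.mul_one]
        omega
    _ = (q + 1) ^ (2 * k + 1) := by rw [pow_succ]
    _ ≤ (2 ^ L) ^ (2 * k + 1) := Nat.pow_le_pow_left hL _
    _ = 2 ^ ((2 * k + 1) * L) := by rw [← pow_mul, Nat.mul_comm]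

/-- Determinization of a single automaton with few trips. -/
theorem single [Finite A] (strict : Prop) (M : LimAut A) (k L : ℕ) (hM : FewTrips strict k M)
    (hL : Nat.card M.Q + 1 ≤ 2 ^ L) :
    ∃ M' : LimAut A, M'.Deterministic ∧
      (∀ strict' : Prop, M'.language strict' = M.language strict) ∧
      Nat.card M'.Q ≤ 2 ^ (((2 * k + 1) * L + 3) ^ 2) ∧
      M'.size ≤ 2 ^ (((2 * k + 1) * L + 3) ^ 2 + 5) * (Nat.card A + 1) ∧
      ∀ (strict' : Prop) (w : List A) (t : ℕ) (c : Cfg M'),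
        Steps (Step strict' w.length) t (init M' w) c → t ≤ Nat.card M'.Q * (w.length + 1) := by
  have hq := card_pos M
  have hL1 : 1 ≤ L := by
    by_contra hc
    have : L = 0 := by omega
    rw [this] at hL
    omega
  set h := (2 * k + 1) * L with hh
  have h1 : 1 ≤ h := Nat.mul_pos (by omega) hL1
  obtain ⟨M', h2, h3, h4, _, h5, h6⟩ := trips_main (n := 1) strict (fun _ => M) (fun _ => k)
    (fun _ => hM) (fun v => v 0) h h1 (by
      simp only [Finset.univ_unique, Finset.sum_const, Finset.card_singleton, one_smul]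
      exact pow_bound _ k L hL)
  have e1 : h ^ 2 + 6 * h + 8 + 1 = (h + 3) ^ 2 := by ring
  have e2 : h ^ 2 + 6 * h + 13 + 1 = (h + 3) ^ 2 + 5 := by ring
  rw [e1] at h4
  rw [e2] at h5
  exact ⟨M', h2, fun strict' => Set.ext (h3 strict'), h4, h5, h6⟩

/-- The values `detSize L(M)`, for the `M` of size at most `n` with at most `k` trips. -/
def costsT (strict : Prop) (k n : ℕ) : Set ℕ :=
  {s | ∃ (A : Type) (_ : Finite A) (M : LimAut A), FewTrips strict k M ∧ M.size ≤ n ∧
    s = detSize strict (M.language strict)}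

/-- The cost function for at most `k` trips. -/
noncomputable def DT (strict : Prop) (k n : ℕ) : ℕ := sSup (costsT strict k n)

theorem detSize_le [Finite A] (strict : Prop) (M : LimAut A) (k n : ℕ)
    (hM : FewTrips strict k M) (hn : M.size ≤ n) :
    detSize strict (M.language strict) ≤ 2 ^ (((2 * k + 1) * (Nat.log 2 n + 1) + 4) ^ 2) := by
  have hs : Nat.card M.Q + Nat.card A + 3 ≤ M.size := by
    unfold LimAut.size
    omega
  set L := Nat.log 2 n + 1 with hL
  have h1 : n < 2 ^ L := Nat.lt_pow_succ_log_self (by norm_num) n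
  obtain ⟨M', h2, h3, _, h5, _⟩ := single strict M k L hM (by omega)
  have h6 : detSize strict (M.language strict) ≤ M'.size := Nat.sInf_le ⟨M', h2, h3 strict, rfl⟩
  refine h6.trans (h5.trans ?_)
  set h := (2 * k + 1) * L with hh
  have h7 : L ≤ h := by
    rw [hh]
    nlinarith
  have h8 : Nat.card A + 1 ≤ 2 ^ h := by
    calc Nat.card A + 1 ≤ 2 ^ L := by omega
      _ ≤ 2 ^ h := Nat.pow_le_pow_right (by norm_num) h7
  calc 2 ^ ((h + 3) ^ 2 + 5) * (Nat.card A + 1) ≤ 2 ^ ((h + 3) ^ 2 + 5) * 2 ^ h :=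
        Nat.mul_le_mul_left _ h8
    _ = 2 ^ ((h + 3) ^ 2 + 5 + h) := by rw [← pow_add]
    _ ≤ 2 ^ ((h + 4) ^ 2) := by
        apply Nat.pow_le_pow_right (by norm_num)
        nlinarith

theorem bdd (strict : Prop) (k n : ℕ) : BddAbove (costsT strict k n) := by
  refine ⟨2 ^ (((2 * k + 1) * (Nat.log 2 n + 1) + 4) ^ 2), ?_⟩
  rintro s ⟨A, hA, M, hM, hn, rfl⟩
  exact detSize_le strict M k n hM hn

/-- The machine without moves. -/
def trivialM : LimAut Empty where
  Q := Unit
  W := Empty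
  finQ := inferInstance
  finW := inferInstance
  inp := id
  inp_inj := fun _ _ h => h
  δ := fun _ _ => ∅
  q0 := ()
  F := ∅

theorem size_trivialM : trivialM.size = 4 := by
  have h : trivialM.numTrans = 0 := by
    unfold LimAut.numTrans
    have : {t : trivialM.Q × Sym trivialM.W × trivialM.Q × trivialM.W × Bool |
        t.2.2 ∈ trivialM.δ t.1 t.2.1} = ∅ := by
      ext t
      exact ⟨fun h => h, fun h => h⟩
    rw [this, Set.ncard_empty]
  unfold LimAut.size
  rw [h]
  have h1 : Nat.card trivialM.Q = 1 := Nat.card_unique (α := Unit)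
  have h2 : Nat.card trivialM.W = 0 := Nat.card_of_isEmpty (α := Empty)
  have h3 : trivialM.F.ncard = 0 := Set.ncard_empty _
  have h4 : Nat.card Empty = 0 := Nat.card_of_isEmpty
  omega

theorem nonempty_costsT (strict : Prop) (k n : ℕ) (hn : 4 ≤ n) : (costsT strict k n).Nonempty := by
  refine ⟨_, Empty, inferInstance, trivialM, ?_, by rw [size_trivialM]; exact hn, rfl⟩
  rintro w ⟨c, _, _, hc⟩
  exact absurd hc (Set.notMem_empty _)

/-- Every 1-limited automaton has at most `q ^ 2` trips. -/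
theorem fewTrips_all (strict : Prop) (M : LimAut A) (k : ℕ) (hk : Nat.card M.Q ^ 2 ≤ k) :
    FewTrips strict k M := by
  intro w hw
  obtain ⟨c, hc, hp, hF⟩ := hw
  have key : ∀ c : Cfg M, ReflTransGen (Step strict w.length) (init M w) c →
      ∃ (T : ℕ) (f : ℕ → Cfg M), IsComp strict M w T f ∧ f T = c := by
    intro c hc
    induction hc with
    | refl => exact ⟨0, fun _ => init M w, ⟨rfl, fun t ht => absurd ht (Nat.not_lt_zero _)⟩, rfl⟩
    | tail _ hs ih =>
      rename_i b c _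
      obtain ⟨T, f, hf, hfT⟩ := ih
      refine ⟨T + 1, fun t => if t ≤ T then f t else c, ⟨?_, ?_⟩, ?_⟩
      · show (if 0 ≤ T then f 0 else c) = _
        rw [if_pos (Nat.zero_le _), hf.start]
      · intro t ht
        show Step strict w.length (if t ≤ T then f t else c) (if t + 1 ≤ T then f (t + 1) else c)
        rw [if_pos (by omega : t ≤ T)]
        by_cases h : t + 1 ≤ T
        · rw [if_pos h]
          exact hf.step t (by omega)
        · rw [if_neg h]
          have : t = T := by omega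
          rw [this, hfT]
          exact hs
      · show (if T + 1 ≤ T then f (T + 1) else c) = c
        rw [if_neg (by omega)]
  obtain ⟨T, f, hf, hfT⟩ := key c hc
  refine ⟨T, f, ⟨hf, by rw [hfT]; exact hp, by rw [hfT]; exact hF⟩, fun i => ?_⟩
  have := M.finQ
  have h1 : (trips T f i).ncard ≤ (Set.univ : Set (M.Q × M.Q)).ncard :=
    Set.ncard_le_ncard (Set.subset_univ _) (Set.toFinite _)
  rw [Set.ncard_univ, Nat.card_prod, ← sq] at h1
  exact h1.trans hk

theorem card_Q_witM (m : ℕ) : Nat.card (witM m).Q ≤ 1330 * (m + 1) := by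
  have h1 := size_witM m
  have h2 : Nat.card (witM m).Q ≤ (witM m).size := by
    unfold LimAut.size
    omega
  exact h2.trans h1

theorem lower_m (strict : Prop) (m k n : ℕ) (hn : 1330 * (m + 1) ≤ n)
    (hk : (1330 * (m + 1)) ^ 2 ≤ k) : 2 ^ (m ^ 2) ≤ DT strict k n ^ 2 := by
  have hM : FewTrips strict k (witM m) :=
    fewTrips_all strict _ k ((Nat.pow_le_pow_left (card_Q_witM m) 2).trans hk)
  have hmem : detSize strict ((witM m).language strict) ∈ costsT strict k n :=
    ⟨Ltr, inferInstance, witM m, hM, (size_witM m).trans hn, rfl⟩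
  have h3 : detSize strict ((witM m).language strict) ≤ DT strict k n :=
    le_csSup (bdd strict k n) hmem
  refine le_trans ?_ (Nat.pow_le_pow_left h3 2)
  obtain ⟨M', h1, h2, -⟩ := upper (witM m) strict
  have hne : {s | ∃ M : LimAut Ltr, M.Deterministic ∧
      M.language strict = (witM m).language strict ∧ M.size = s}.Nonempty := ⟨_, M', h1, h2, rfl⟩
  obtain ⟨M, h3, h4, h5⟩ := Nat.sInf_mem hne
  have h6 : M.size = detSize strict ((witM m).language strict) := h5
  rw [← h6]
  exact Pool.Agent.TH705.LB.lower m strict M h3 h4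

theorem lower_k (strict : Prop) (k n : ℕ) (h0 : 28302400 ≤ k) (hk : k ≤ n ^ 2) :
    2 ^ k ≤ DT strict k n ^ 15000000 := by
  obtain ⟨s, hs1, hs2⟩ : ∃ s, s ^ 2 ≤ k ∧ k < (s + 1) ^ 2 :=
    ⟨Nat.sqrt k, Nat.sqrt_le' k, Nat.lt_succ_sqrt' k⟩
  have hs : 5320 ≤ s := by
    by_contra hc
    have : s + 1 ≤ 5320 := by omega
    have := Nat.pow_le_pow_left this 2
    omega
  have hsn : s ≤ n := by
    have : s ^ 2 ≤ n ^ 2 := hs1.trans hk
    exact (Nat.pow_le_pow_iff_left two_ne_zero).1 this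
  obtain ⟨m, hm, h1, h2⟩ : ∃ m, 3 ≤ m ∧ 1330 * (m + 1) ≤ s ∧ s + 1 ≤ 1330 * (m + 2) :=
    ⟨s / 1330 - 1, by omega, by omega, by omega⟩
  have h3 := lower_m strict m k n (h1.trans hsn) ((Nat.pow_le_pow_left h1 2).trans hs1)
  have h4 : k ≤ m ^ 2 * 7500000 := by
    have h5 : (s + 1) ^ 2 ≤ (1330 * (m + 2)) ^ 2 := Nat.pow_le_pow_left h2 2
    nlinarith
  calc 2 ^ k ≤ 2 ^ (m ^ 2 * 7500000) := Nat.pow_le_pow_right (by norm_num) h4
    _ = (2 ^ (m ^ 2)) ^ 7500000 := by rw [pow_mul]
    _ ≤ (DT strict k n ^ 2) ^ 7500000 := Nat.pow_le_pow_left h3 _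
    _ = DT strict k n ^ 15000000 := by rw [← pow_mul]

/-- Machines with few trips that are equivalent to the witness are large. -/
theorem trade_off (strict : Prop) (m k : ℕ) (M : LimAut Ltr) (hM : FewTrips strict k M)
    (hL : M.language strict = (witM m).language strict) :
    m ≤ 2 * ((2 * k + 1) * (Nat.log 2 (Nat.card M.Q) + 1) + 3) := by
  set L := Nat.log 2 (Nat.card M.Q) + 1 with hLd
  have h1 : Nat.card M.Q < 2 ^ L := Nat.lt_pow_succ_log_self (by norm_num) _
  obtain ⟨M', h2, h3, h4, _, _⟩ := single strict M k L hM h1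
  have h5 := lowerQ m strict M' h2 ((h3 strict).trans hL)
  set x := (2 * k + 1) * L + 3 with hx
  have h6 : Nat.card M'.Q * Nat.card M'.Q + Nat.card M'.Q ≤ 2 ^ (2 * x ^ 2 + 1) := by
    have h7 : Nat.card M'.Q * Nat.card M'.Q ≤ 2 ^ (x ^ 2) * 2 ^ (x ^ 2) := Nat.mul_le_mul h4 h4
    have h8 : Nat.card M'.Q ≤ Nat.card M'.Q * Nat.card M'.Q :=
      Nat.le_mul_of_pos_left _ (card_pos M')
    have h9 : 2 ^ (2 * x ^ 2 + 1) = 2 * (2 ^ (x ^ 2) * 2 ^ (x ^ 2)) := by
      rw [pow_succ, two_mul (x ^ 2), pow_add]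
      ring
    omega
  have h7 : m ^ 2 ≤ 2 * x ^ 2 + 1 :=
    (Nat.pow_le_pow_iff_right (by norm_num : 1 < 2)).1 (h5.trans h6)
  have h8 : 3 ≤ x := by omega
  by_contra hc
  have h9 : 2 * x + 1 ≤ m := by omega
  have h10 := Nat.pow_le_pow_left h9 2
  nlinarith

end Pool.Agent.R620.KV
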