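import Mathlib
import Pool.Agent.R620.KV.Main

set_option autoImplicit false

/-!
Few reversals of the head imply few trips.
-/

namespace Pool.Agent.R620.KV

open Relation
open Pool.Agent.H630R2.LA

variable {A : Type}

/-- Every word of the language has an accepting computation in which the head changes at most `k`
times from a move to the right to a move to the left. -/
def FewReversals (strict : Prop) (k : ℕ) (M : LimAut A) : Prop :=
  ∀ w ∈ M.language strict, ∃ (T : ℕ) (f : ℕ → Cfg M), IsAcc strict M w T f ∧
    {t | t + 2 ≤ T ∧ (f (t + 1)).pos = (f t).pos + 1 ∧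
      (f (t + 2)).pos + 1 = (f (t + 1)).pos}.ncard ≤ k

theorem FewReversals.fewTrips {strict : Prop} {k : ℕ} {M : LimAut A}
    (h : FewReversals strict k M) : FewTrips strict (k + 1) M := by
  intro w hw
  obtain ⟨T, f, hf, hk⟩ := h w hw
  refine ⟨T, f, hf, fun i => ?_⟩
  set V : Set ℕ := {t | t + 2 ≤ T ∧ (f (t + 1)).pos = (f t).pos + 1 ∧
      (f (t + 2)).pos + 1 = (f (t + 1)).pos} with hV
  have hVfin : V.Finite := (Set.finite_lt_nat T).subset fun t ht => by
    have := ht.1
    show t < T
    omega
  -- the last move to the right before a given time
  have hlast : ∀ s, s < T → (f (s + 1)).pos + 1 = (f s).pos →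
      (∀ u, u < s → (f (u + 1)).pos + 1 = (f u).pos) ∨
      ∃ u, u < s ∧ u ∈ V ∧ ∀ v, u < v → v < s → (f (v + 1)).pos + 1 = (f v).pos := by
    intro s
    induction s with
    | zero => exact fun _ _ => Or.inl fun u hu => absurd hu (Nat.not_lt_zero _)
    | succ s ih =>
      intro h1 h2
      rcases pos_succ hf.toIsComp (t := s) (by omega) with h3 | h3
      · refine Or.inr ⟨s, by omega, ⟨by omega, h3, h2⟩, fun v hv1 hv2 => by omega⟩
      · rcases ih (by omega) h3 with h4 | ⟨u, h4, h5, h6⟩
        · refine Or.inl fun u hu => ?_
          rcases Nat.lt_or_ge u s with h | h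
          · exact h4 u h
          · have : u = s := by omega
            rw [this]
            exact h3
        · refine Or.inr ⟨u, by omega, h5, fun v hv1 hv2 => ?_⟩
          rcases Nat.lt_or_ge v s with h | h
          · exact h6 v hv1 h
          · have : v = s := by omega
            rw [this]
            exact h3
  classical
  choose! s hs using fun (x : M.Q × M.Q) (hx : x ∈ trips T f i) => hx
  have hleft : ∀ x ∈ trips T f i, (f (s x + 1)).pos + 1 = (f (s x)).pos := by
    intro x hx
    obtain ⟨t, _, _, h3, h4, _⟩ := hs x hx
    omega
  have hsT : ∀ x ∈ trips T f i, s x < T := by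
    intro x hx
    obtain ⟨t, h1, h2, _⟩ := hs x hx
    omega
  -- the code of a trip
  let code : M.Q × M.Q → Option ℕ := fun x =>
    if h : ∃ u, u < s x ∧ u ∈ V ∧ ∀ v, u < v → v < s x → (f (v + 1)).pos + 1 = (f v).pos
    then some h.choose else none
  -- two times with moves to the left and the same position are separated by a move to the right
  have hsep : ∀ a b, a < b → (∀ v, a ≤ v → v < b → (f (v + 1)).pos + 1 = (f v).pos) →
      (f b).pos + (b - a) = (f a).pos := by
    intro a b hab
    induction b with
    | zero => omega
    | succ b ih =>
      intro h1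
      rcases Nat.lt_or_ge a b with h2 | h2
      · have h3 := ih h2 (fun v hv1 hv2 => h1 v hv1 (by omega))
        have h4 := h1 b (by omega) (by omega)
        omega
      · have : a = b := by omega
        subst this
        have h4 := h1 a le_rfl (by omega)
        omega
  have hinj : Set.InjOn code (trips T f i) := by
    have key : ∀ x ∈ trips T f i, ∀ y ∈ trips T f i, s x < s y → code x ≠ code y := by
      intro x hx y hy hlt he
      have hxs := hleft x hx
      obtain ⟨t, _, _, h3, _⟩ := hs x hx
      obtain ⟨t', _, _, h3', _⟩ := hs y hy
      have hnot : ¬ ∀ v, s x ≤ v → v < s y → (f (v + 1)).pos + 1 = (f v).pos := by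
        intro h
        have := hsep _ _ hlt h
        omega
      by_cases hcx : ∃ u, u < s x ∧ u ∈ V ∧
          ∀ v, u < v → v < s x → (f (v + 1)).pos + 1 = (f v).pos
      · by_cases hcy : ∃ u, u < s y ∧ u ∈ V ∧
            ∀ v, u < v → v < s y → (f (v + 1)).pos + 1 = (f v).pos
        · have e1 : code x = some hcx.choose := dif_pos hcx
          have e2 : code y = some hcy.choose := dif_pos hcy
          rw [e1, e2] at he
          have he' := Option.some.inj he
          have h4 := hcx.choose_spec
          have h5 := hcy.choose_spec
          rw [← he'] at h5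
          exact hnot fun v hv1 hv2 => h5.2.2 v (by omega) hv2
        · have e1 : code x = some hcx.choose := dif_pos hcx
          have e2 : code y = none := dif_neg hcy
          rw [e1, e2] at he
          exact absurd he (by simp)
      · rcases hlast (s y) (hsT y hy) (hleft y hy) with h4 | h4
        · exact hnot fun v _ hv2 => h4 v hv2
        · have e1 : code x = none := dif_neg hcx
          have e2 : code y = some h4.choose := dif_pos h4
          rw [e1, e2] at he
          exact absurd he (by simp)
    intro x hx y hy hxy
    rcases Nat.lt_trichotomy (s x) (s y) with h | h | h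
    · exact absurd hxy (key x hx y hy h)
    · obtain ⟨t, h1, h2, h3, h4, h5, h6, h7, h8⟩ := hs x hx
      obtain ⟨t', h1', h2', h3', h4', h5', h6', h7', h8'⟩ := hs y hy
      rw [← h] at h1' h5' h8'
      have : t = t' := by
        rcases Nat.lt_trichotomy t t' with h | h | h
        · have := h8' t (by omega) h
          omega
        · exact h
        · have := h8 t' (by omega) h
          omega
      subst this
      exact Prod.ext (h5.symm.trans h5') (h7.symm.trans h7')
    · exact absurd hxy.symm (key y hy x hx h)
  have hmaps : Set.MapsTo code (trips T f i) (insert none (some '' V)) := by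
    intro x hx
    by_cases hcx : ∃ u, u < s x ∧ u ∈ V ∧
          ∀ v, u < v → v < s x → (f (v + 1)).pos + 1 = (f v).pos
    · have e1 : code x = some hcx.choose := dif_pos hcx
      rw [e1]
      exact Or.inr ⟨_, hcx.choose_spec.2.1, rfl⟩
    · have e1 : code x = none := dif_neg hcx
      rw [e1]
      exact Or.inl rfl
  have h1 : (trips T f i).ncard ≤ (insert none (some '' V)).ncard :=
    Set.ncard_le_ncard_of_injOn code hmaps hinj ((hVfin.image _).insert _)
  have h2 : (insert none (some '' V)).ncard ≤ (some '' V).ncard + 1 := Set.ncard_insert_le _ _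
  have h3 : (some '' V).ncard ≤ V.ncard := Set.ncard_image_le hVfin
  omega

end Pool.Agent.R620.KV
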